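import Pool.Agent.H8.ZA.All

/-!
# Automorphisms of affine 3-space with first dynamical degree > 1 over algebraically closed fields
-/

open MvPolynomial

namespace Pool.Agent.Results.MP_0cda1a_ag.AutomorphismsA3

variable {k : Type} [Field k]

/-- the polynomial self-map of affine 3-space with components `f i`, acting on points -/
noncomputable def act (f : Fin 3 → MvPolynomial (Fin 3) k) (x : Fin 3 → k) : Fin 3 → k :=
  fun i => eval x (f i)

/-- the `n`-th iterate of `f` as a tuple of polynomials -/
noncomputable def iter (f : Fin 3 → MvPolynomial (Fin 3) k) (n : ℕ) :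
    Fin 3 → MvPolynomial (Fin 3) k :=
  (fun g i => aeval g (f i))^[n] fun i => X i

/-- `f` is fibered: there is an invariant rational function `p / q` which is not constant -/
def Fibered (f : Fin 3 → MvPolynomial (Fin 3) k) : Prop :=
  ∃ p q : MvPolynomial (Fin 3) k, q ≠ 0 ∧ (∀ c : k, p ≠ C c * q) ∧
    aeval f p * q = aeval f q * p

/-- the forward orbit of `x` is Zariski dense -/
def DenseOrbit (f : Fin 3 → MvPolynomial (Fin 3) k) (x : Fin 3 → k) : Prop :=
  ∀ h : MvPolynomial (Fin 3) k, (∀ n : ℕ, eval ((act f)^[n] x) h = 0) → h = 0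

/-- Let `k` be an algebraically closed field of characteristic zero and `f` an automorphism of
affine 3-space over `k` such that the degrees of the iterates of `f` do not grow subexponentially
(first dynamical degree bigger than one). Then no point has a Zariski dense orbit if and only if
`f` is fibered. -/
theorem result [IsAlgClosed k] [CharZero k] (f f' : Fin 3 → MvPolynomial (Fin 3) k)
    (hleft : ∀ i, aeval f' (f i) = X i) (hright : ∀ i, aeval f (f' i) = X i)
    (hdeg : ∃ c : ℝ, 1 < c ∧ ∀ N : ℕ, ∃ n ≥ N, ∃ i, c ^ n ≤ ((iter f n i).totalDegree : ℝ)) :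
    (¬ ∃ x, DenseOrbit f x) ↔ Fibered f := by
  constructor
  · intro hno
    by_contra hinv
    obtain ⟨c, hc, hgrow⟩ := hdeg
    obtain ⟨x, -, hx⟩ := Pool.Agent.H8.ZA.F.main k f f' ⟨funext hleft, funext hright⟩ hinv c hc
      (fun N => by
        obtain ⟨n, hn, i, hi⟩ := hgrow N
        exact ⟨n, hn, hi.trans (Nat.cast_le.2
          (Pool.Agent.H8.ZA.totalDegree_le_deg (Pool.Agent.H8.ZA.it f n) i))⟩) 1 one_ne_zero
    exact hno ⟨x, hx⟩
  · rintro ⟨p, q, hq, hpq, heq⟩ ⟨x, hx⟩
    obtain ⟨q₁, p₁, g, hrel, hgq, hgp⟩ := UniqueFactorizationMonoid.exists_reduced_factors q hq p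
    have hg0 : g ≠ 0 := by
      rintro rfl
      exact hq (by rw [← hgq, zero_mul])
    have hq₁ : q₁ ≠ 0 := by
      rintro rfl
      exact hq (by rw [← hgq, mul_zero])
    have hf : Pool.Agent.H8.ZA.Inv f f' := ⟨funext hleft, funext hright⟩
    have hgf : (aeval f g : MvPolynomial (Fin 3) k) ≠ 0 := by
      intro h0
      exact hg0 (hf.injective (by rw [h0, map_zero]))
    have heq₁ : aeval f p₁ * q₁ = aeval f q₁ * p₁ := by
      have h1 : (aeval f g * g) * (aeval f p₁ * q₁) = (aeval f g * g) * (aeval f q₁ * p₁) := by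
        have h2 := heq
        rw [← hgq, ← hgp, map_mul, map_mul] at h2
        linear_combination h2
      exact mul_left_cancel₀ (mul_ne_zero hgf hg0) h1
    -- `q₁` is a semi-invariant
    have hdvd : q₁ ∣ aeval f q₁ := by
      have h1 : q₁ ∣ aeval f q₁ * p₁ := Dvd.intro_left _ heq₁
      exact hrel.dvd_of_dvd_mul_right h1
    obtain ⟨w, hw⟩ := hdvd
    have hwp : aeval f p₁ = w * p₁ := by
      have h1 : q₁ * aeval f p₁ = q₁ * (w * p₁) := by
        rw [mul_comm q₁ (aeval f p₁), heq₁, hw]
        ring
      exact mul_left_cancel₀ hq₁ h1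
    have hvan : ∀ n, eval x p₁ * eval ((act f)^[n] x) q₁ -
        eval x q₁ * eval ((act f)^[n] x) p₁ = 0 := by
      intro n
      induction n with
      | zero => simp [mul_comm]
      | succ n ih =>
        rw [Function.iterate_succ_apply']
        change eval x p₁ * eval (Pool.Agent.H12.ZD.pmap f ((act f)^[n] x)) q₁ -
          eval x q₁ * eval (Pool.Agent.H12.ZD.pmap f ((act f)^[n] x)) p₁ = 0
        rw [← Pool.Agent.H8.ZA.eval_aeval, ← Pool.Agent.H8.ZA.eval_aeval, hw, hwp, map_mul,
          map_mul]
        linear_combination (eval ((act f)^[n] x) w) * ih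
    have hzero : C (eval x p₁) * q₁ - C (eval x q₁) * p₁ = 0 := by
      apply hx
      intro n
      rw [map_sub, map_mul, map_mul, eval_C, eval_C]
      exact hvan n
    have hqx : eval x q₁ ≠ 0 := by
      intro h0
      apply hq₁
      apply hx
      intro n
      induction n with
      | zero => exact h0
      | succ n ih =>
        rw [Function.iterate_succ_apply']
        change eval (Pool.Agent.H12.ZD.pmap f ((act f)^[n] x)) q₁ = 0
        rw [← Pool.Agent.H8.ZA.eval_aeval, hw, map_mul, ih, zero_mul]
    apply hpq (eval x p₁ / eval x q₁)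
    have h1 : C (eval x q₁) * p = C (eval x q₁) * (C (eval x p₁ / eval x q₁) * q) := by
      have h2 : C (eval x q₁) * C (eval x p₁ / eval x q₁) = (C (eval x p₁) :
          MvPolynomial (Fin 3) k) := by
        rw [← C_mul, mul_div_cancel₀ _ hqx]
      rw [← mul_assoc, h2, ← hgp, ← hgq]
      linear_combination -g * hzero
    exact mul_left_cancel₀ (by rwa [Ne, C_eq_zero]) h1

end Pool.Agent.Results.MP_0cda1a_ag.AutomorphismsA3
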