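import Pool.Agent.H8.ZA.All

/-!
# Zariski dense orbits of automorphisms of affine 3-space with first dynamical degree > 1
-/

open MvPolynomial

namespace Pool.Agent.Results.MP_ccfdad_ag.AutomorphismsA3

/-- the field of algebraic numbers -/
abbrev Qbar : Type := AlgebraicClosure ℚ

/-- the `n`-th iterate of the polynomial self-map `f` of affine 3-space, as a tuple of
polynomials -/
noncomputable def iter (f : Fin 3 → MvPolynomial (Fin 3) Qbar) (n : ℕ) :
    Fin 3 → MvPolynomial (Fin 3) Qbar :=
  (fun g i => aeval g (f i))^[n] fun i => X i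

/-- Let `f` be an automorphism of affine 3-space over the algebraic numbers without a
non-constant invariant rational function `p / q`, and suppose that the degrees of the iterates
`f ^ n` do not grow subexponentially (that is, the first dynamical degree of `f` is bigger than
one). Then some point has a Zariski dense forward orbit. -/
theorem result (f f' : Fin 3 → MvPolynomial (Fin 3) Qbar)
    (hleft : ∀ i, aeval f' (f i) = X i) (hright : ∀ i, aeval f (f' i) = X i)
    (hinv : ¬ ∃ p q : MvPolynomial (Fin 3) Qbar, q ≠ 0 ∧ (∀ c : Qbar, p ≠ C c * q) ∧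
      aeval f p * q = aeval f q * p)
    (hdeg : ∃ c : ℝ, 1 < c ∧ ∀ N : ℕ, ∃ n ≥ N, ∃ i, c ^ n ≤ ((iter f n i).totalDegree : ℝ)) :
    ∃ P : Fin 3 → Qbar, ∀ h : MvPolynomial (Fin 3) Qbar,
      (∀ n : ℕ, eval ((fun (x : Fin 3 → Qbar) i => eval x (f i))^[n] P) h = 0) → h = 0 := by
  obtain ⟨c, hc, hgrow⟩ := hdeg
  obtain ⟨x, -, hx⟩ := Pool.Agent.H8.ZA.F.main Qbar f f' ⟨funext hleft, funext hright⟩ hinv c hc
    (fun N => by
      obtain ⟨n, hn, i, hi⟩ := hgrow N
      exact ⟨n, hn, hi.trans (Nat.cast_le.2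
        (Pool.Agent.H8.ZA.totalDegree_le_deg (Pool.Agent.H8.ZA.it f n) i))⟩) 1 one_ne_zero
  exact ⟨x, hx⟩

end Pool.Agent.Results.MP_ccfdad_ag.AutomorphismsA3
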